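import Pool.Agent.Helper65.IC.St

/-!
Project IC (MP_1bacb5_al), module GP.
-/

set_option autoImplicit false

universe u

namespace Pool.Agent.Helper84.IC

open Subgroup Pool.Agent.Helper58.RK Pool.Agent.Helper65.IC

/-! ### the derived series inside the group -/

/-- the `d`-th derived subgroup of `N` as a subgroup of `G` -/
def dd {G : Type*} [Group G] (N : Subgroup G) (d : ℕ) : Subgroup G :=
  (derivedSeries N d).map N.subtype

theorem dd_zero {G : Type*} [Group G] (N : Subgroup G) : dd N 0 = N := by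
  unfold dd
  rw [derivedSeries_zero, ← MonoidHom.range_eq_map, Subgroup.range_subtype]

theorem dd_succ {G : Type*} [Group G] (N : Subgroup G) (d : ℕ) :
    dd N (d + 1) = ⁅dd N d, dd N d⁆ := by
  unfold dd
  rw [derivedSeries_succ, Subgroup.map_commutator]

theorem dd_map_le {G K : Type*} [Group G] [Group K] (f : G →* K) (M : Subgroup G)
    (N : Subgroup K) (h : M.map f ≤ N) (d : ℕ) : (dd M d).map f ≤ dd N d := by
  induction d with
  | zero =>
    rw [dd_zero, dd_zero]
    exact h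
  | succ d ih =>
    rw [dd_succ, dd_succ, Subgroup.map_commutator]
    exact Subgroup.commutator_mono ih ih

theorem dd_le_map {G K : Type*} [Group G] [Group K] (f : G →* K) (M : Subgroup G)
    (N : Subgroup K) (h : N ≤ M.map f) (d : ℕ) : dd N d ≤ (dd M d).map f := by
  induction d with
  | zero =>
    rw [dd_zero, dd_zero]
    exact h
  | succ d ih =>
    rw [dd_succ, dd_succ, Subgroup.map_commutator]
    exact Subgroup.commutator_mono ih ih

/-! ### rank of quotients -/

theorem srank_surj {G K : Type*} [Group G] [Group K] {r : ℕ} (h : SRank G r) (f : G →* K)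
    (hf : Function.Surjective f) : SRank K r := by
  classical
  intro H hH
  obtain ⟨t, ht⟩ := hH
  obtain ⟨g, hg⟩ := hf.hasRightInverse
  obtain ⟨s, hs1, hs2⟩ := h (closure ((t.image g : Finset G) : Set G)) ⟨t.image g, rfl⟩
  refine ⟨s.image f, Finset.card_image_le.trans hs1, ?_⟩
  rw [Finset.coe_image, ← MonoidHom.map_closure, hs2, MonoidHom.map_closure, ← Finset.coe_image,
    Finset.image_image, ← ht]
  congr 2
  have : (f ∘ g : K → K) = id := funext hg
  rw [this, Finset.image_id]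

/-! ### conjugates -/

section
variable {G : Type*} [Group G]

theorem mem_cj' {g x : G} {C : Subgroup G} : x ∈ cj g C ↔ g⁻¹ * x * g ∈ C := by
  unfold cj
  rw [Subgroup.mem_map]
  constructor
  · rintro ⟨y, hy, rfl⟩
    simpa [mul_assoc] using hy
  · intro h
    refine ⟨g⁻¹ * x * g, h, ?_⟩
    simp [mul_assoc]

theorem cj_mul' (g h : G) (C : Subgroup G) : cj (g * h) C = cj g (cj h C) := by
  ext x
  rw [mem_cj', mem_cj', mem_cj']
  simp [mul_assoc]

theorem cj_mono' {g : G} {C D : Subgroup G} (h : C ≤ D) : cj g C ≤ cj g D := by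
  intro x hx
  rw [mem_cj'] at hx ⊢
  exact h hx

theorem mem_norm_of_cj {c : G} {I : Subgroup G} (h : cj c I = I) : c ∈ normalizer (I : Set G) := by
  rw [Subgroup.mem_normalizer_iff]
  intro x
  constructor
  · intro hx
    have e : c * x * c⁻¹ ∈ cj c I := by
      rw [mem_cj']
      simpa [mul_assoc] using hx
    rwa [h] at e
  · intro hx
    rw [← h, mem_cj'] at hx
    simpa [mul_assoc] using hx

end

theorem pGP (hKT : StKT.{u}) : StGP.{u} := by
  intro G _ r m d S hr hS hJ A hA a haA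
  by_contra hcon
  push Not at hcon
  have hfix : ∀ (c : G) (I : Subgroup G), I ∈ S → ∀ m n : ℤ, cj (a ^ m) A ≤ I →
      c ∈ cj (a ^ n) A → cj c I = I := fun c I hI m n h1 h2 => hcon c I hI ⟨m, n, h1, h2⟩
  -- the conjugates
  have hAS : ∀ k : ℤ, cj (a ^ k) A ∈ S := fun k => hS.inv _ _ hA
  have hAstep : ∀ k : ℤ, cj (a ^ k) A ≤ cj (a ^ (k + 1)) A := by
    intro k
    rw [zpow_add_one, cj_mul']
    exact cj_mono' haA.le
  obtain ⟨b₀, hb1, hb2⟩ := SetLike.exists_of_lt haA
  obtain ⟨b, hb⟩ : ∃ b : ℤ → G, b = fun n => a ^ n * b₀ * (a ^ n)⁻¹ := ⟨_, rfl⟩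
  have hbin : ∀ n : ℤ, b n ∈ cj (a ^ (n + 1)) A := by
    intro n
    rw [zpow_add_one, cj_mul', mem_cj', hb]
    simpa [mul_assoc] using hb1
  have hbout : ∀ n : ℤ, b n ∉ cj (a ^ n) A := by
    intro n
    rw [mem_cj', hb]
    simpa [mul_assoc] using hb2
  obtain ⟨B, hB⟩ : ∃ B : Subgroup G, B = closure (Set.range b) := ⟨_, rfl⟩
  have hbB : ∀ n, b n ∈ B := fun n => by
    rw [hB]
    exact subset_closure ⟨n, rfl⟩
  have hBnorm : ∀ I ∈ S, ∀ k : ℤ, cj (a ^ k) A ≤ I → B ≤ normalizer (I : Set G) := by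
    intro I hI k hk
    rw [hB, closure_le]
    rintro _ ⟨n, rfl⟩
    exact mem_norm_of_cj (hfix (b n) I hI k (n + 1) hk (hbin n))
  obtain ⟨Z, hZ⟩ : ∃ Z : Subgroup G, Z = ⨅ n : ℤ, cj (a ^ n) A := ⟨_, rfl⟩
  have hZle : ∀ n : ℤ, Z ≤ cj (a ^ n) A := fun n => by
    rw [hZ]
    exact iInf_le _ n
  have hZn : (Z.subgroupOf B).Normal := by
    refine ⟨fun z hz g => ?_⟩
    rw [mem_subgroupOf] at hz ⊢
    rw [hZ, mem_iInf]
    intro n
    have h1 := hBnorm _ (hAS n) n le_rfl g.2
    rw [Subgroup.mem_normalizer_iff] at h1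
    exact (h1 (z : G)).mp (hZle n hz)
  -- the quotient
  have hImem : ∀ I : Subgroup G, Z ≤ I → ∀ y : B,
      (QuotientGroup.mk' (Z.subgroupOf B) y ∈ (I.subgroupOf B).map (QuotientGroup.mk' (Z.subgroupOf B)) ↔
        (y : G) ∈ I) := by
    intro I hI y
    constructor
    · rintro ⟨w, hw, hwy⟩
      have h1 : w⁻¹ * y ∈ Z.subgroupOf B := by
        rw [← QuotientGroup.eq]
        exact hwy
      have h2 : ((w⁻¹ * y : B) : G) ∈ I := hI (mem_subgroupOf.mp h1)
      have h3 : (w : G) ∈ I := mem_subgroupOf.mp hw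
      have h4 : (y : G) = w * ((w⁻¹ * y : B) : G) := by
        push_cast
        group
      rw [h4]
      exact I.mul_mem h3 h2
    · intro hy
      exact ⟨y, mem_subgroupOf.mpr hy, rfl⟩
  obtain ⟨im, him⟩ : ∃ im : Subgroup G → Subgroup (B ⧸ Z.subgroupOf B), im = fun I =>
      (I.subgroupOf B).map (QuotientGroup.mk' (Z.subgroupOf B)) := ⟨_, rfl⟩
  have himem : ∀ I : Subgroup G, Z ≤ I → ∀ y : B,
      (QuotientGroup.mk' (Z.subgroupOf B) y ∈ im I ↔ (y : G) ∈ I) := by
    intro I hI y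
    rw [him]
    exact hImem I hI y
  have himono : ∀ I J : Subgroup G, I ≤ J → im I ≤ im J := by
    intro I J h
    rw [him]
    exact Subgroup.map_mono (Subgroup.comap_mono h)
  have hsurj : Function.Surjective (QuotientGroup.mk' (Z.subgroupOf B)) :=
    QuotientGroup.mk'_surjective _
  have hmain := hKT (B ⧸ Z.subgroupOf B) r m d
    {N | ∃ I ∈ S, (∃ k : ℤ, cj (a ^ k) A ≤ I) ∧ N = im I}
    (srank_surj (hr.pull B.subtype B.subtype_injective) _ hsurj) ?_ ?_
    (fun i => im (cj (a ^ (i : ℤ)) A)) (fun i => ⟨_, hAS i, ⟨i, le_rfl⟩, rfl⟩) ?_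
    (r * (d + 2 * r) + 1) ?_
  · omega
  · -- normality
    rintro N ⟨I, hI, ⟨k, hk⟩, rfl⟩
    have h1 : (I.subgroupOf B).Normal := by
      refine ⟨fun z hz g => ?_⟩
      rw [mem_subgroupOf] at hz ⊢
      have h2 := hBnorm I hI k hk g.2
      rw [Subgroup.mem_normalizer_iff] at h2
      exact (h2 (z : G)).mp hz
    rw [him]
    exact h1.map _ hsurj
  · -- the jumps
    intro x hx
    obtain ⟨y, rfl⟩ := hsurj x
    have hyZ : (y : G) ∉ Z := by
      intro h
      apply hx
      rw [← MonoidHom.mem_ker, QuotientGroup.ker_mk']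
      exact mem_subgroupOf.mpr h
    have hyk : ∃ k : ℤ, (y : G) ∉ cj (a ^ k) A := by
      by_contra hc
      push Not at hc
      apply hyZ
      rw [hZ, mem_iInf]
      exact hc
    obtain ⟨k, hyk⟩ := hyk
    have hy1 : (y : G) ≠ 1 := by
      intro h
      apply hyZ
      rw [h]
      exact Z.one_mem
    obtain ⟨D, C, hDC, hyC, hyD, N, hNn, hN0, hNm, hN⟩ := hJ (y : G) hy1
    have hkD : cj (a ^ k) A ≤ D := by
      rcases hDC.cmp _ (hAS k) with h | h
      · exact h
      · exact absurd (h hyC) hyk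
    have hkC : cj (a ^ k) A ≤ C := hkD.trans hDC.le
    have hZD : Z ≤ D := (hZle k).trans hkD
    have hZC : Z ≤ C := (hZle k).trans hkC
    refine ⟨im D, ⟨D, hDC.hD, ⟨k, hkD⟩, rfl⟩, im C, ⟨C, hDC.hC, ⟨k, hkC⟩, rfl⟩,
      (himem C hZC y).mpr hyC, fun h => hyD ((himem D hZD y).mp h), himono D C hDC.le, ?_, ?_, ?_⟩
    · rintro _ ⟨I, hI, _, rfl⟩
      rcases hDC.cmp I hI with h | h
      · exact Or.inl (himono _ _ h)
      · exact Or.inr (himono _ _ h)
    · intro x' hx' n hn hxn
      obtain ⟨w, rfl⟩ := hsurj x'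
      rw [himem C hZC] at hx'
      rw [← map_pow, himem D hZD] at hxn
      rw [himem D hZD]
      refine hDC.tf _ hx' n hn ?_
      simpa using hxn
    · have hBC : B ≤ normalizer (C : Set G) := hBnorm C hDC.hC k hkC
      have hrel0 : N.relIndex B ≠ 0 := fun h => hN0 (relIndex_eq_zero_of_le_right hBC h)
      have hrelm : N.relIndex B ≤ m := (relIndex_le_of_le_right hBC hN0).trans hNm
      have hdvd : ((N.subgroupOf B).map (QuotientGroup.mk' (Z.subgroupOf B))).index ∣
          N.relIndex B := index_map_dvd _ hsurj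
      refine ⟨(N.subgroupOf B).map (QuotientGroup.mk' (Z.subgroupOf B)), ?_, ?_, ?_⟩
      · intro h0
        rw [h0] at hdvd
        exact hrel0 (Nat.eq_zero_of_zero_dvd hdvd)
      · exact (Nat.le_of_dvd (Nat.pos_of_ne_zero hrel0) hdvd).trans hrelm
      · intro g' hg' x' hx'
        obtain ⟨w, rfl⟩ := hsurj x'
        rw [himem C hZC] at hx'
        have h1 : g' ∈ (dd (N.subgroupOf B) d).map (QuotientGroup.mk' (Z.subgroupOf B)) :=
          dd_le_map _ _ _ le_rfl d hg'
        obtain ⟨g, hg, rfl⟩ := h1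
        have h2 : (g : G) ∈ (derivedSeries N d).map N.subtype := by
          have h3 : (dd (N.subgroupOf B) d).map B.subtype ≤ dd N d :=
            dd_map_le B.subtype (N.subgroupOf B) N (by
              rintro _ ⟨z, hz, rfl⟩
              exact mem_subgroupOf.mp hz) d
          exact h3 ⟨g, hg, rfl⟩
        have h3 := hN (g : G) h2 (w : G) hx'
        have h4 : QuotientGroup.mk' (Z.subgroupOf B) w * QuotientGroup.mk' (Z.subgroupOf B) g *
            (QuotientGroup.mk' (Z.subgroupOf B) w)⁻¹ * (QuotientGroup.mk' (Z.subgroupOf B) g)⁻¹ =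
            QuotientGroup.mk' (Z.subgroupOf B) (w * g * w⁻¹ * g⁻¹) := by
          simp only [map_mul, map_inv]
        rw [h4, himem D hZD]
        simpa using h3
  · -- monotone
    refine monotone_nat_of_le_succ fun i => himono _ _ ?_
    have := hAstep (i : ℤ)
    push_cast
    exact this
  · intro i _
    refine ⟨QuotientGroup.mk' (Z.subgroupOf B) ⟨b i, hbB i⟩, ?_, ?_⟩
    · show QuotientGroup.mk' (Z.subgroupOf B) ⟨b i, hbB i⟩ ∈ im (cj (a ^ ((i + 1 : ℕ) : ℤ)) A)
      rw [himem _ (hZle _)]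
      have := hbin (i : ℤ)
      push_cast
      exact this
    · show ¬ QuotientGroup.mk' (Z.subgroupOf B) ⟨b i, hbB i⟩ ∈ im (cj (a ^ (i : ℤ)) A)
      rw [himem _ (hZle _)]
      exact hbout i

end Pool.Agent.Helper84.IC
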